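import Pool.Agent.H37.CTL.Stmts

/-!
# Row T52 of the board `ctl`: the wild group is unitriangular
-/

set_option autoImplicit false

namespace Pool.CND

open Finset Polynomial

namespace T52

section

variable {k L : Type} [Field k] [Field L] [Algebra k L]

theorem lead (P : Place k L) {x y : L} {n : ℤ} (hx : x ≠ 0) (hy : P.Ge y (P.ord x + 1))
    (hn : P.Ge (x + y) n) : n ≤ P.ord x := by
  obtain ⟨h1, h2⟩ := P.ord_add_of_lt hx hy
  rw [← h2]
  exact (P.ge_iff h1 n).1 hn

theorem ge_cst {F : Type} [Field F] [Algebra F k] (P : Place k L) (c : F) {x : L} {n : ℤ}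
    (hx : P.Ge x n) : P.Ge (cst k F L c * x) n := by
  have h := P.ge_mul (P.ge_const (algebraMap F k c)) hx
  rw [zero_add] at h
  exact h

theorem cst_ne {F : Type} [Field F] [Algebra F k] {c : F} (hc : c ≠ 0) : cst k F L c ≠ 0 := by
  intro h
  apply hc
  have h1 : algebraMap k L (algebraMap F k c) = 0 := h
  have h2 := (map_eq_zero_iff _ (algebraMap k L).injective).1 h1
  exact (map_eq_zero_iff _ (algebraMap F k).injective).1 h2

theorem ord_cst {F : Type} [Field F] [Algebra F k] (P : Place k L) {c : F} (hc : c ≠ 0) {x : L}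
    (hx : x ≠ 0) : P.ord (cst k F L c * x) = P.ord x := by
  rw [P.ord_mul _ _ (cst_ne hc) hx]
  have : P.ord (cst k F L c) = 0 := by
    refine P.ord_const (algebraMap F k c) ?_
    intro h
    exact hc ((map_eq_zero_iff _ (algebraMap F k).injective).1 h)
  rw [this, zero_add]

/-- leading coefficients vanish -/
theorem coef {F : Type} [Field F] [Algebra F k] (P : Place k L) {c : F} {x y : L} {n : ℤ}
    (hx : x ≠ 0) (hy : P.Ge y (P.ord x + 1)) (hlt : P.ord x < n)
    (hn : P.Ge (cst k F L c * x + y) n) : c = 0 := by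
  by_contra hc
  have h1 : cst k F L c * x ≠ 0 := mul_ne_zero (cst_ne hc) hx
  have h2 := lead P h1 (by rw [ord_cst P hc hx]; exact hy) hn
  rw [ord_cst P hc hx] at h2
  omega

end

end T52

open T52

theorem t52_thm (hLON : S_LON) : S_T52 := by
  intro p k F L _ _ _ _ _ _ f q t X G₀ ρ P hp hp2 hch hf hq hF hC hX ht h0 h1 h2 g hg
  have hq2 : (2 : ℤ) ≤ q := by
    have h3 : 2 ≤ q := by
      rw [hq]
      exact hp.two_le.trans (Nat.le_self_pow (by omega) p)
    exact_mod_cast h3
  obtain ⟨hfix, hram⟩ := hg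
  have hbig : ∀ x : L, x ≠ 0 → P.Ge (ρ g x - x) (P.ord x + 1) := by
    intro x hx
    have h3 : P.Ge (ρ g P.pi - P.pi) ((1 : ℤ) + 1) := by
      rcases hram P.pi P.pi_ne P.ord_pi with h | h
      · exact Or.inl (sub_eq_zero.2 h)
      · right
        simpa using h
    rcases hLON k L P (ρ g) P.pi 1 hfix P.pi_ne P.ord_pi (by norm_num) h3 x with h | h
    · exact h
    · exact absurd h hx
  have o21 : P.ord (X 2) < P.ord (X 1) := by
    nlinarith [mul_pos (show (0 : ℤ) < q by omega) (show (0 : ℤ) < (q : ℤ) - 1 by omega)]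
  have o10 : P.ord (X 1) < P.ord (X 0) := by
    have hpos : (0 : ℤ) < (q : ℤ) * ((q : ℤ) - 1) :=
      mul_pos (by omega) (by omega)
    have e1 : (q : ℤ) * ((q : ℤ) - 1) * (P.ord (X 0) - P.ord (X 1)) =
        -(P.ord t) * ((q : ℤ) ^ 3 - q - 2) := by
      linear_combination (q : ℤ) * h0 - h1
    have e2 : 0 < -(P.ord t) * ((q : ℤ) ^ 3 - q - 2) := by
      refine mul_pos (by omega) ?_
      nlinarith [mul_nonneg (show (0 : ℤ) ≤ (q : ℤ) - 2 by omega)
        (show (0 : ℤ) ≤ (q : ℤ) by omega), sq_nonneg ((q : ℤ) - 2)]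
    rw [← e1] at e2
    have := (mul_pos_iff_of_pos_left hpos).1 e2
    omega
  have hsum : ∀ i : Fin 3, ρ g (X i) - X i =
      cst k F L (g.1.1 2 i - if i = 2 then 1 else 0) * X 2 +
      (cst k F L (g.1.1 1 i - if i = 1 then 1 else 0) * X 1 +
      cst k F L (g.1.1 0 i - if i = 0 then 1 else 0) * X 0) := by
    intro i
    rw [hC.act g i, Fin.sum_univ_three]
    fin_cases i <;> simp [cst] <;> ring
  have gX : ∀ (i : Fin 3) (c : F), P.Ge (cst k F L c * X i) (P.ord (X i)) :=
    fun i c => ge_cst P c (P.ge_ord (X i))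
  have key : ∀ i : Fin 3,
      (P.ord (X 2) < P.ord (X i) + 1 → g.1.1 2 i = if i = 2 then 1 else 0) ∧
      (P.ord (X 1) < P.ord (X i) + 1 → g.1.1 1 i = if i = 1 then 1 else 0) ∧
      (P.ord (X 0) < P.ord (X i) + 1 → g.1.1 0 i = if i = 0 then 1 else 0) := by
    intro i
    have h3 := hbig (X i) (hX i)
    rw [hsum i] at h3
    have a2 : P.ord (X 2) < P.ord (X i) + 1 → g.1.1 2 i - (if i = 2 then 1 else 0) = 0 := by
      intro hlt
      refine coef P (hX 2) ?_ hlt h3
      exact P.ge_add (P.ge_mono (gX 1 _) (by omega)) (P.ge_mono (gX 0 _) (by omega))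
    have a1 : P.ord (X 1) < P.ord (X i) + 1 → g.1.1 1 i - (if i = 1 then 1 else 0) = 0 := by
      intro hlt
      rw [a2 (by omega)] at h3
      have h4 : cst k F L (0 : F) = 0 := by simp [cst]
      rw [h4, zero_mul, zero_add] at h3
      exact coef P (hX 1) (P.ge_mono (gX 0 _) (by omega)) hlt h3
    have a0 : P.ord (X 0) < P.ord (X i) + 1 → g.1.1 0 i - (if i = 0 then 1 else 0) = 0 := by
      intro hlt
      rw [a2 (by omega), a1 (by omega)] at h3
      have h4 : cst k F L (0 : F) = 0 := by simp [cst]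
      rw [h4, zero_mul, zero_mul, zero_add, zero_add, ← add_zero
        (cst k F L (g.1.1 0 i - if i = 0 then 1 else 0) * X 0)] at h3
      exact coef P (hX 0) (P.ge_zero _) hlt h3
    exact ⟨fun h => sub_eq_zero.1 (a2 h), fun h => sub_eq_zero.1 (a1 h),
      fun h => sub_eq_zero.1 (a0 h)⟩
  constructor
  · intro i j hij
    have h3 := key j
    fin_cases i <;> fin_cases j <;> simp at hij
    · simpa using h3.2.1 (by simp; omega)
    · simpa using h3.1 (by simp; omega)
    · simpa using h3.1 (by simp; omega)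
  · intro i
    have h3 := key i
    fin_cases i
    · simpa using h3.2.2 (by simp)
    · simpa using h3.2.1 (by simp)
    · simpa using h3.1 (by simp)

end Pool.CND
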